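import Pool.Agent.COS.Stmts

/-!
# Squad COS, row MCH: the check of the certificates is computable in polynomial time
-/

set_option autoImplicit false

namespace Pool.Agent.COS.H50

open Turing Computability Pool.Agent.UT.Num Pool.Agent.H2XG Pool.Agent.PAR

variable {m : ℕ}

theorem gtF {n : (Fin m → List K) → ℕ} {w : (Fin m → List K) → Word}
    {i j : (Fin m → List K) → ℕ} (hn : FPN m n) (hw : FPW m w) (hi : FPN m i) (hj : FPN m j) :
    FPB m (fun ρ => gt (n ρ) (w ρ) (i ρ) (j ρ)) :=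
  FPW.getD hw (FPN.add (FPN.mul hi hn) hj)

theorem mulF {n : (Fin m → List K) → ℕ} {a b : (Fin m → List K) → Word}
    (hn : FPN m n) (ha : FPW m a) (hb : FPW m b) :
    FPW m (fun ρ => mulW (n ρ) (a ρ) (b ρ)) := by
  refine FPW.range (FPN.mul hn hn) (b := fun k ρ => decide
    (((List.range (n ρ)).countP fun l => gt (n ρ) (a ρ) (k / n ρ) l &&
      gt (n ρ) (b ρ) l (k % n ρ)) % 2 = 1)) ?_
  refine FPB.eqN (FPN.mod (FPN.count (FPN.weak hn) (b := fun l σ =>
    gt (n fun i => σ i.succ) (a fun i => σ i.succ) ((σ 0).length / n fun i => σ i.succ) l &&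
    gt (n fun i => σ i.succ) (b fun i => σ i.succ) l ((σ 0).length % n fun i => σ i.succ)) ?_)
    (FPN.const 2)) (FPN.const 1)
  have hn2 := FPN.weak (FPN.weak hn)
  exact FPB.and
    (gtF hn2 (FPW.weak (FPW.weak ha)) (FPN.div FPN.v1 hn2) FPN.v0)
    (gtF hn2 (FPW.weak (FPW.weak hb)) FPN.v0 (FPN.mod FPN.v1 hn2))

theorem oneF {n : (Fin m → List K) → ℕ} (hn : FPN m n) : FPW m (fun ρ => oneW (n ρ)) := by
  refine FPW.range (FPN.mul hn hn) (b := fun k ρ => decide (k / n ρ = k % n ρ)) ?_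
  exact FPB.eqN (FPN.div FPN.v0 (FPN.weak hn)) (FPN.mod FPN.v0 (FPN.weak hn))

theorem redF {n : (Fin m → List K) → ℕ} {a : (Fin m → List K) → Word}
    (hn : FPN m n) (ha : FPW m a) : FPB m (fun ρ => redW (n ρ) (a ρ)) := by
  have hn1 := FPN.weak hn
  have hn2 := FPN.weak hn1
  have hn3 := FPN.weak hn2
  have hn4 := FPN.weak hn3
  have ha1 := FPW.weak ha
  have ha2 := FPW.weak ha1
  have ha3 := FPW.weak ha2
  have ha4 := FPW.weak ha3
  have v2 : FPN (C := K) (m + 3) (fun σ => (σ 2).length) := FPN.len (FP.var 2)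
  have v3 : FPN (C := K) (m + 4) (fun σ => (σ 3).length) := FPN.len (FP.var 3)
  unfold redW
  refine FPB.all hn (b := fun i ρ => decide (∀ j < n ρ, (!decide (i < j) || decide (∀ r < n ρ,
    (!(gt (n ρ) (a ρ) r i && decide (∀ s < n ρ, (!decide (s < r) || !gt (n ρ) (a ρ) s i) = true))
      || !gt (n ρ) (a ρ) r j) = true)) = true)) ?_
  refine FPB.all hn1 (b := fun j σ => (!decide ((σ 0).length < j) ||
    decide (∀ r < n (fun i => σ i.succ),
    (!(gt (n fun i => σ i.succ) (a fun i => σ i.succ) r (σ 0).length &&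
      decide (∀ s < n (fun i => σ i.succ), (!decide (s < r) ||
        !gt (n fun i => σ i.succ) (a fun i => σ i.succ) s (σ 0).length) = true))
      || !gt (n fun i => σ i.succ) (a fun i => σ i.succ) r j) = true))) ?_
  refine FPB.or (FPB.not (FPB.ltN FPN.v1 FPN.v0)) ?_
  refine FPB.all hn2 (b := fun r σ => (!(gt (n fun i => σ i.succ.succ)
    (a fun i => σ i.succ.succ) r (σ 1).length &&
      decide (∀ s < n (fun i => σ i.succ.succ), (!decide (s < r) ||
        !gt (n fun i => σ i.succ.succ) (a fun i => σ i.succ.succ) s (σ 1).length) = true))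
      || !gt (n fun i => σ i.succ.succ) (a fun i => σ i.succ.succ) r (σ 0).length)) ?_
  refine FPB.or (FPB.not (FPB.and (gtF hn3 ha3 FPN.v0 v2) ?_)) (FPB.not (gtF hn3 ha3 FPN.v0 FPN.v1))
  refine FPB.all hn3 (b := fun s σ => (!decide (s < (σ 0).length) ||
        !gt (n fun i => σ i.succ.succ.succ) (a fun i => σ i.succ.succ.succ) s (σ 2).length)) ?_
  exact FPB.or (FPB.not (FPB.ltN FPN.v0 FPN.v1)) (FPB.not (gtF hn4 ha4 FPN.v0 v3))

theorem uniF {n : (Fin m → List K) → ℕ} {u : (Fin m → List K) → Word}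
    (hn : FPN m n) (hu : FPW m u) : FPB m (fun ρ => uniW (n ρ) (u ρ)) := by
  have hn1 := FPN.weak hn
  have hn2 := FPN.weak hn1
  have hu1 := FPW.weak hu
  have hu2 := FPW.weak hu1
  unfold uniW
  refine FPB.all hn (b := fun i ρ => (gt (n ρ) (u ρ) i i &&
    decide (∀ j < n ρ, (!decide (j < i) || !gt (n ρ) (u ρ) i j) = true))) ?_
  refine FPB.and (gtF hn1 hu1 FPN.v0 FPN.v0) ?_
  refine FPB.all hn1 (b := fun j σ => (!decide (j < (σ 0).length) ||
    !gt (n fun i => σ i.succ) (u fun i => σ i.succ) (σ 0).length j)) ?_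
  exact FPB.or (FPB.not (FPB.ltN FPN.v0 FPN.v1)) (FPB.not (gtF hn2 hu2 FPN.v1 FPN.v0))

theorem inF {V : Word × Word → Bool} (hV : PolyPair V) {n : (Fin m → List K) → ℕ}
    {x a b u : (Fin m → List K) → Word}
    (hn : FPN m n) (hx : FPW m x) (ha : FPW m a) (hb : FPW m b) (hu : FPW m u) :
    FPB m (fun ρ => inW V (n ρ) (x ρ) (a ρ) (b ρ) (u ρ)) := by
  unfold inW
  exact FPB.and (FPB.and (FPB.eqN (FPW.len hu) (FPN.mul hn hn)) (uniF hn hu))
    (FPB.call2 hV hx (mulF hn (mulF hn ha hu) hb))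

theorem blF {N : (Fin m → List K) → ℕ} {w : (Fin m → List K) → Word}
    {i : (Fin m → List K) → ℕ} (hN : FPN m N) (hw : FPW m w) (hi : FPN m i) :
    FPW m (fun ρ => blW (N ρ) (w ρ) (i ρ)) := by
  unfold blW
  exact FPW.take (FPW.drop hw (FPN.mul hi hN)) hN

theorem decEqBool (p q : Bool) : decide (p = q) = (p && q || !p && !q) := by
  cases p <;> cases q <;> rfl

theorem frameF {V : Word × Word → Bool} (hV : PolyPair V) {n N : (Fin m → List K) → ℕ}
    {x a b Q y Z Z' : (Fin m → List K) → Word}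
    (hn : FPN m n) (hN : FPN m N) (hx : FPW m x) (ha : FPW m a) (hb : FPW m b)
    (hQ : FPW m Q) (hy : FPW m y) (hZ : FPW m Z) (hZ' : FPW m Z') :
    FPB m (fun ρ => frameW (inW V (n ρ) (x ρ) (a ρ) (b ρ)) (N ρ) (Q ρ) (y ρ) (Z ρ) (Z' ρ)) := by
  have hn1 := FPN.weak hn
  have hN1 := FPN.weak hN
  have hN2 := FPN.weak hN1
  have hx1 := FPW.weak hx
  have ha1 := FPW.weak ha
  have hb1 := FPW.weak hb
  have hQ1 := FPW.weak hQ
  have hQ2 := FPW.weak hQ1
  have hy1 := FPW.weak hy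
  have hZ1 := FPW.weak hZ
  have hZ2 := FPW.weak hZ1
  have hY1 := FPW.weak hZ'
  have hY2 := FPW.weak hY1
  unfold frameW
  refine FPB.and (FPB.and (inF hV hn hx ha hb hy) ?_) ?_
  · refine FPB.all hN (b := fun i ρ => (!(Q ρ).getD i false || !(y ρ).getD i false)) ?_
    exact FPB.or (FPB.not (FPW.getD hQ1 FPN.v0)) (FPB.not (FPW.getD hy1 FPN.v0))
  · refine FPB.all hN (b := fun i ρ => if (Q ρ).getD i false then
      inW V (n ρ) (x ρ) (a ρ) (b ρ) (blW (N ρ) (Z ρ) i) &&
      inW V (n ρ) (x ρ) (a ρ) (b ρ) (blW (N ρ) (Z' ρ) i) &&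
      (blW (N ρ) (Z ρ) i).getD i false && !(blW (N ρ) (Z' ρ) i).getD i false &&
      decide (∀ j < N ρ, (!decide (j < i) || decide ((blW (N ρ) (Z ρ) i).getD j false =
        (blW (N ρ) (Z' ρ) i).getD j false)) = true) &&
      decide (∀ j < N ρ, (decide (j = i) || !(Q ρ).getD j false ||
        (!(blW (N ρ) (Z ρ) i).getD j false && !(blW (N ρ) (Z' ρ) i).getD j false)) = true)
    else decide (∀ j < N ρ, (!(blW (N ρ) (Z ρ) i).getD j false &&
      !(blW (N ρ) (Z' ρ) i).getD j false) = true)) ?_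
    have hz := blF hN1 hZ1 FPN.v0
    have hy' := blF hN1 hY1 FPN.v0
    have hz2 := blF hN2 hZ2 FPN.v1
    have hy2 := blF hN2 hY2 FPN.v1
    refine FPB.ite (FPW.getD hQ1 FPN.v0) ?_ ?_
    · refine FPB.and (FPB.and (FPB.and (FPB.and (FPB.and (inF hV hn1 hx1 ha1 hb1 hz)
        (inF hV hn1 hx1 ha1 hb1 hy')) (FPW.getD hz FPN.v0)) (FPB.not (FPW.getD hy' FPN.v0))) ?_) ?_
      · refine FPB.all hN1 (b := fun j σ => (!decide (j < (σ 0).length) ||
          decide ((blW (N fun i => σ i.succ) (Z fun i => σ i.succ) (σ 0).length).getD j false =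
            (blW (N fun i => σ i.succ) (Z' fun i => σ i.succ) (σ 0).length).getD j false))) ?_
        refine FPB.or (FPB.not (FPB.ltN FPN.v0 FPN.v1)) ?_
        have h1 := FPW.getD hz2 FPN.v0
        have h2 := FPW.getD hy2 FPN.v0
        exact FPB.congr (FPB.or (FPB.and h1 h2) (FPB.and (FPB.not h1) (FPB.not h2))) fun σ =>
          decEqBool _ _
      · refine FPB.all hN1 (b := fun j σ => (decide (j = (σ 0).length) ||
          !(Q fun i => σ i.succ).getD j false ||
          (!(blW (N fun i => σ i.succ) (Z fun i => σ i.succ) (σ 0).length).getD j false &&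
            !(blW (N fun i => σ i.succ) (Z' fun i => σ i.succ) (σ 0).length).getD j false))) ?_
        exact FPB.or (FPB.or (FPB.eqN FPN.v0 FPN.v1) (FPB.not (FPW.getD hQ2 FPN.v0)))
          (FPB.and (FPB.not (FPW.getD hz2 FPN.v0)) (FPB.not (FPW.getD hy2 FPN.v0)))
    · refine FPB.all hN1 (b := fun j σ =>
          (!(blW (N fun i => σ i.succ) (Z fun i => σ i.succ) (σ 0).length).getD j false &&
            !(blW (N fun i => σ i.succ) (Z' fun i => σ i.succ) (σ 0).length).getD j false)) ?_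
      exact FPB.and (FPB.not (FPW.getD hz2 FPN.v0)) (FPB.not (FPW.getD hy2 FPN.v0))

theorem valF {V : Word × Word → Bool} (hV : PolyPair V) {n : (Fin m → List K) → ℕ}
    {x c : (Fin m → List K) → Word} (hn : FPN m n) (hx : FPW m x) (hc : FPW m c) :
    FPB m (fun ρ => val V (n ρ) (x ρ) (c ρ)) := by
  have hN := FPN.mul hn hn
  have hNN := FPN.mul hN hN
  have k : ∀ i : ℕ, FPN (C := K) m (fun _ => i) := fun i => FPN.const i
  have bl : ∀ i : ℕ, FPW m (fun ρ => blW (n ρ * n ρ) (c ρ) i) := fun i => blF hN hc (k i)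
  unfold COS.val
  exact FPB.and (FPB.and (FPB.and (FPB.and (FPB.and
    (FPB.eqN (FPW.len hc) (FPN.add (FPN.mul (k 6) hN) (FPN.mul (k 2) hNN)))
    (FPW.eq (mulF hn (bl 0) (bl 1)) (oneF hn)))
    (FPW.eq (mulF hn (bl 2) (bl 3)) (oneF hn)))
    (redF hn (bl 0))) (redF hn (bl 2)))
    (frameF hV hn hN hx (bl 2) (bl 1) (bl 4) (bl 5)
      (FPW.drop hc (FPN.mul (k 6) hN)) (FPW.drop hc (FPN.add (FPN.mul (k 6) hN) hNN)))

/-- **MCH** -/
theorem mch : MchStmt := fun V d hV =>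
  polyPair_of' (g := fun x c => COS.val V (d.eval x.length) x c) fun _ _ _ hA hB =>
    valF hV (FPN.poly (FPW.len hA) d) hA hB

end Pool.Agent.COS.H50
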